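import Pool.Agent.R941.AE.Conv

/-!
# Analytic zero divisors: all or nothing

If the analytic zero divisor conjecture fails for one torsion-free group, then every real number
between `0` and `1` is the von Neumann dimension of the kernel, on `ℓ²(G)`, of an element of the
integral group ring of some finitely generated torsion-free group `G`; and there is one torsion-free
group for which all these numbers occur.

Outline.  Ranks of matrices are used instead of dimensions of kernels.
(1) From a counterexample one gets an element `a` with integer coefficients of rank `s`, `0 < s < 1`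
(wedge products, starting library `TH57.AZ`).
(2) The lamp machine of the starting library `TH25.AD` gives, for suitable groups, matrices *of one
fixed size* whose kernel dimensions fill an interval; so their ranks fill an interval.
(3) The rank of `A ⊗ a` over `H × G` is the product of the ranks; with direct sums all positive
real numbers are ranks.
(4) If the rank of the matrix `A` is less than one, then a row of free generators is injective on
the closure of the range of `A*`, so that the row times `A*` has the same rank as `A`; doing this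
twice one gets a one by one matrix, that is, an element.
-/

set_option autoImplicit false

noncomputable section

namespace Pool.Agent.Results.MP_0f25e6_al.AllOrNothingForElements

/-- `α * f` is nonzero for every nonzero square-summable `f`, where
`(α * f)(g) = ∑ α(k) f(k⁻¹ g)`. -/
def Regular {G : Type} [Group G] (α : G →₀ ℂ) : Prop :=
  ∀ f : G → ℂ, Memℓp f 2 → f ≠ 0 → ∃ g : G, ∑ k ∈ α.support, α k * f (k⁻¹ * g) ≠ 0

/-- All square-summable `f` with `α * f = 0`. -/
def kernel {G : Type} [Group G] (α : G →₀ ℂ) : Set (lp (fun _ : G => ℂ) 2) :=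
  {f | ∀ g : G, ∑ k ∈ α.support, α k * f (k⁻¹ * g) = 0}

open Classical in
/-- The von Neumann dimension of the kernel of left convolution by `α`: one minus the square of the
distance from the basis vector at the identity of `G` to the kernel (this is the squared length of
the projection of that vector to the kernel). -/
def kerDim {G : Type} [Group G] (α : G →₀ ℂ) : ℝ :=
  1 - Metric.infDist (lp.single 2 (1 : G) (1 : ℂ)) (kernel α) ^ 2

/-- `G` is torsion-free. -/
def TorsionFree (G : Type) [Group G] : Prop := ∀ g : G, ∀ n : ℕ, 0 < n → g ^ n = 1 → g = 1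

/-- `C` is a class of torsion-free groups which is closed under subgroups and isomorphisms
(injective homomorphisms into a member), direct products of arbitrary families, semidirect products
with `ℤ`, and free products with free groups of finite rank. -/
structure ClosedClass (C : (G : Type) → [Group G] → Prop) : Prop where
  torsionFree : ∀ (G : Type) [Group G], C G → TorsionFree G
  subgroup : ∀ (G H : Type) [Group G] [Group H] (f : G →* H), Function.Injective f → C H → C G
  product : ∀ (I : Type) (G : I → Type) [∀ i, Group (G i)], (∀ i, C (G i)) → C (∀ i, G i)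
  semidirect : ∀ (G : Type) [Group G] (s : MulAut G), C G →
    C (G ⋊[zpowersHom (MulAut G) s] Multiplicative ℤ)
  freeProduct : ∀ (G : Type) [Group G] (m : ℕ), C G → C (Monoid.Coprod G (FreeGroup (Fin m)))

open Pool.Agent Pool.Agent.TH25.AD Pool.Agent.R941.AE Pool.Agent.TH57.AZ

theorem cls {C : (G : Type) → [Group G] → Prop} (h : ClosedClass C) : Cls C :=
  ⟨h.torsionFree, h.subgroup, h.product, h.semidirect, h.freeProduct⟩

theorem tf_of_isLcm {G : Type} [Group G] (h : W656.VA.IsLcm G 1) : TorsionFree G := by
  intro g n hn hg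
  have h1 : IsOfFinOrder g := isOfFinOrder_iff_pow_eq_one.2 ⟨n, hn, hg⟩
  have h2 : Finite (Subgroup.zpowers g) := (finite_zpowers.2 h1).to_subtype
  have h3 := h.2.1 (Subgroup.zpowers g) h2
  rw [Nat.card_zpowers, Nat.dvd_one, orderOf_eq_one_iff] at h3
  exact h3

/-- The torsion-free groups form such a class. -/
theorem closedClass_torsionFree : ClosedClass (fun (G : Type) [Group G] => TorsionFree G) := by
  refine ⟨fun G _ h => h, ?_, ?_, ?_, ?_⟩
  · intro G H _ _ f hf hH g n hn hg
    apply hf
    rw [map_one]
    refine hH _ n hn ?_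
    rw [← map_pow, hg, map_one]
  · intro I G _ h g n hn hg
    funext i
    exact h i _ n hn (congrFun hg i)
  · intro G _ s hG g n hn hg
    have h1 : g.right = 1 := by
      refine tf_int _ n hn ?_
      have := congrArg SemidirectProduct.rightHom hg
      rw [map_pow, map_one] at this
      exact this
    have h2 : g = SemidirectProduct.inl g.left := by
      apply SemidirectProduct.ext
      · rfl
      · rw [h1]
        rfl
    rw [h2, ← map_pow] at hg
    have h3 : g.left ^ n = 1 := by
      apply SemidirectProduct.inl_injective (φ := zpowersHom (MulAut G) s)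
      rw [hg, map_one]
    rw [h2, hG _ n hn h3, map_one]
  · intro G _ m hG
    show TorsionFree (Monoid.Coprod G (FreeGroup (Fin m)))
    exact tf_of_isLcm (W656.VA.IsLcm.coprod (G := G) (W656.VA.isLcm_one hG) m)

theorem kerDim_eq {G : Type} [Group G] (α : G →₀ ℂ) : kerDim α = 1 - rk (el1 α) := kdim_eq α

theorem exists_of_not_regular {G : Type} [Group G] {α : G →₀ ℂ} (h : ¬ Regular α) :
    0 < kd α := by
  unfold Regular at h
  push Not at h
  obtain ⟨f, hf, h0, h1⟩ := h
  refine kd_pos α (f := ⟨f, hf⟩) h1 ?_
  intro h2
  apply h0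
  exact congrArg (fun x : lp (fun _ : G => ℂ) 2 => (x : G → ℂ)) h2

theorem kd_of_regular {G : Type} [Group G] {α : G →₀ ℂ} (h : Regular α) : kd α = 0 := by
  by_contra hne
  obtain ⟨u, hu, _, hu2⟩ := exists_proj α
  have h0 : u ≠ 0 := by
    intro h0
    apply hne
    rw [← hu2, h0]
    simp
  obtain ⟨g, hg⟩ := h u (lp.memℓp u) (by
    intro h1
    exact h0 (lp.ext h1))
  exact hg (hu g)

/-- an integral element of rank between zero and one -/
theorem exists_small {C : (G : Type) → [Group G] → Prop} (hC : ClosedClass C)
    (h : ¬ ∀ (G : Type) [Group G], C G → ∀ α : G →₀ ℂ, α ≠ 0 → Regular α) :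
    ∃ (G : Type) (_ : Group G) (_ : C G) (a : G →₀ ℂ), (∀ g, a g ∈ (⊥ : Subring ℂ)) ∧
      0 < rk (el1 a) ∧ rk (el1 a) < 1 := by
  push Not at h
  obtain ⟨G, _, hG, α, h0, hr⟩ := h
  set e := α.support.equivFin.symm with he
  set g : Fin α.support.card → G := fun i => (e i : G) with hg
  have hinj : Function.Injective g := fun i j h => e.injective (Subtype.ext h)
  have hw := kd_wedge α g hinj (by
    intro x
    constructor
    · intro hx
      exact ⟨e.symm ⟨x, hx⟩, by rw [hg]; simp⟩
    · rintro ⟨i, rfl⟩
      exact (e i).2) h0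
  have h1 : 0 < kd (wd g) := lt_of_lt_of_le (pow_pos (exists_of_not_regular hr) _) hw
  refine ⟨Fin α.support.card → G, inferInstance, hC.product _ _ (fun _ => hG), wd g, ?_,
    rk_el_pos (wd_ne_zero hinj), ?_⟩
  · intro x
    rcases wd_values hinj x with h2 | h2 | h2
    · rw [h2]; exact Subring.zero_mem _
    · rw [h2]; exact Subring.one_mem _
    · rw [h2]; exact Subring.neg_mem _ (Subring.one_mem _)
  · have h3 : kd (wd g) = 1 - rk (el1 (wd g)) := kdim_eq (wd g)
    linarith

/-- if the conjecture fails in the class, then all numbers between zero and one occur -/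
theorem all_values {C : (G : Type) → [Group G] → Prop} (hC : ClosedClass C)
    (h : ¬ ∀ (G : Type) [Group G], C G → ∀ α : G →₀ ℂ, α ≠ 0 → Regular α)
    (r : ℝ) (h0 : 0 < r) (h1 : r < 1) : ∃ (G : Type) (_ : Group G) (_ : C G) (b : G →₀ ℂ),
      (∀ g, b g ∈ (⊥ : Subring ℂ)) ∧ kerDim b = r := by
  obtain ⟨G, _, hG, a, ha, ha0, ha1⟩ := exists_small hC h
  have hconj : ∀ c ∈ (⊥ : Subring ℂ), (starRingEnd ℂ) c ∈ (⊥ : Subring ℂ) := by
    intro c hc
    obtain ⟨k, rfl⟩ := Subring.mem_bot.1 hc
    rw [map_intCast]
    exact Subring.mem_bot.2 ⟨k, rfl⟩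
  obtain ⟨H, _, hH, b, hb, hbr⟩ := el_all (cls hC) hconj hG a ha ha0 ha1 (1 - r) (by linarith)
    (by linarith)
  refine ⟨H, inferInstance, hH, b, hb, ?_⟩
  rw [kerDim_eq, hbr, sub_sub_cancel]

/-- **Analytic zero divisors: all or nothing.**  Let `C` be a class of torsion-free groups which is
closed under subgroups, direct products, semidirect products with `ℤ` and free products with free
groups of finite rank, for example the class of all torsion-free groups, and let `R` be any subring
of `ℂ`, for example `ℤ`.  The following are equivalent.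

1. The analytic zero divisor conjecture holds for all groups of `C`: `α * f ≠ 0` for all nonzero
   `α` in `ℂ[G]` and all nonzero `f` in `ℓ²(G)`.
2. Some real number `r` with `0 < r < 1` is not the dimension of the kernel of an element of `R[G]`
   on `ℓ²(G)`, for any finitely generated group `G` in `C`.
3. For every group `G` in `C`, some real number `r` with `0 < r < 1` is not the dimension of the
   kernel of an element of `R[G]` on `ℓ²(G)`.

So if the conjecture fails for one torsion-free group, then every real number between `0` and `1` is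
the dimension of the kernel of an element of `ℤ[G]` for some finitely generated torsion-free group
`G`, and there is one torsion-free group for which all these numbers occur. -/
theorem result :
    ClosedClass (fun (G : Type) [Group G] => TorsionFree G) ∧
    ∀ C : (G : Type) → [Group G] → Prop, ClosedClass C → ∀ R : Subring ℂ, List.TFAE [
      ∀ (G : Type) [Group G], C G → ∀ α : G →₀ ℂ, α ≠ 0 → Regular α,
      ∃ r : ℝ, 0 < r ∧ r < 1 ∧ ∀ (G : Type) [Group G], C G → Group.FG G →
        ∀ α : G →₀ ℂ, (∀ g, α g ∈ R) → kerDim α ≠ r,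
      ∀ (G : Type) [Group G], C G → ∃ r : ℝ, 0 < r ∧ r < 1 ∧
        ∀ α : G →₀ ℂ, (∀ g, α g ∈ R) → kerDim α ≠ r] := by
  refine ⟨closedClass_torsionFree, fun C hC R => ?_⟩
  have hhalf : (∀ (G : Type) [Group G], C G → ∀ α : G →₀ ℂ, α ≠ 0 → Regular α) →
      ∀ (G : Type) [Group G], C G → ∀ α : G →₀ ℂ, kerDim α ≠ 1 / 2 := by
    intro h G _ hG α
    by_cases h0 : α = 0
    · rw [h0, kerDim_eq, rk_el_zero]
      norm_num
    · have h1 : kerDim α = kd α := rfl
      rw [h1, kd_of_regular (h G hG α h0)]
      norm_num
  have hbot : ∀ c : ℂ, c ∈ (⊥ : Subring ℂ) → c ∈ R := fun c hc => (bot_le : ⊥ ≤ R) hc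
  tfae_have 1 → 2 := fun h =>
    ⟨1 / 2, by norm_num, by norm_num, fun G _ hG _ α _ => hhalf h G hG α⟩
  tfae_have 1 → 3 := fun h G _ hG =>
    ⟨1 / 2, by norm_num, by norm_num, fun α _ => hhalf h G hG α⟩
  tfae_have 2 → 1 := by
    rintro ⟨r, h0, h1, h2⟩
    by_contra h
    obtain ⟨G, _, hG, b, hb, hbr⟩ := all_values hC h r h0 h1
    obtain ⟨K, β, hK, hβ, hkd⟩ := exists_fg b
    refine h2 K (hC.subgroup K G K.subtype K.subtype_injective hG) hK β
      (fun g => ?_) (hkd.trans hbr)
    rw [hβ]
    exact hbot _ (hb _)
  tfae_have 3 → 1 := by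
    intro h2
    by_contra h
    have h3 : ∀ r : {r : ℝ // 0 < r ∧ r < 1}, ∃ (G : Type) (_ : Group G) (_ : C G)
        (b : G →₀ ℂ), (∀ g, b g ∈ (⊥ : Subring ℂ)) ∧ kerDim b = r :=
      fun r => all_values hC h r r.2.1 r.2.2
    choose Gr iG hG b hb hbr using h3
    classical
    obtain ⟨r, h0, h1, h4⟩ := h2 (∀ r, Gr r) (hC.product _ Gr hG)
    set f : Gr ⟨r, h0, h1⟩ →* (∀ r, Gr r) := MonoidHom.mulSingle Gr ⟨r, h0, h1⟩ with hf
    have hfi : Function.Injective f := Pi.mulSingle_injective _
    refine h4 ((b ⟨r, h0, h1⟩).mapDomain f) (fun g => ?_) ?_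
    · exact hbot _ (W656.VA.coef_mapDomain f _ (hb ⟨r, h0, h1⟩) g)
    · exact (kdim_push f hfi _).trans (hbr ⟨r, h0, h1⟩)
  tfae_finish

end Pool.Agent.Results.MP_0f25e6_al.AllOrNothingForElements
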