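import Pool.Agent.R625.AZ.Semi

set_option autoImplicit false

universe u v

namespace Pool.Agent.Results.MP_0f25e6_al.FreeSemigroupSupport

/-- `α * f` is nonzero for every nonzero square-summable `f`, where
`(α * f)(g) = ∑ α(k) f(k⁻¹ g)`. -/
def Regular {G : Type u} [Group G] (α : G →₀ ℂ) : Prop :=
  ∀ f : G → ℂ, Memℓp f 2 → f ≠ 0 → ∃ g : G, ∑ k ∈ α.support, α k * f (k⁻¹ * g) ≠ 0

/-- All square-summable `f` with `α * f = 0`. -/
def kernel {G : Type u} [Group G] (α : G →₀ ℂ) : Set (lp (fun _ : G => ℂ) 2) :=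
  {f | ∀ g : G, ∑ k ∈ α.support, α k * f (k⁻¹ * g) = 0}

open Classical in
/-- The von Neumann dimension of the kernel of left convolution by `α`: one minus the square of the
distance from the basis vector at the identity of `G` to the kernel (this is the squared length of
the projection of that vector to the kernel). -/
noncomputable def kerDim {G : Type u} [Group G] (α : G →₀ ℂ) : ℝ :=
  1 - Metric.infDist (lp.single 2 (1 : G) (1 : ℂ)) (kernel α) ^ 2

/-- The element `c + ∑ a(i) s(i)` of the complex group algebra. -/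
noncomputable def element {G : Type u} [Group G] {ι : Type v} [Fintype ι] (s : ι → G) (c : ℂ)
    (a : ι → ℂ) : G →₀ ℂ :=
  Finsupp.single 1 c + ∑ i, Finsupp.single (s i) (a i)

/-- The products of at most `N` factors among the `s(i)` are pairwise distinct as words, and no
product of two such words is trivial unless the second word is empty. -/
def DistinctWords {G : Type u} [Group G] {ι : Type v} (s : ι → G) (N : ℕ) : Prop :=
  ∀ v w : List ι, v.length ≤ N → w.length ≤ N →
    ((v.map s).prod = (w.map s).prod → v = w) ∧ ((v.map s).prod * (w.map s).prod = 1 → w = [])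

open Pool.Agent.TH57.AZ Pool.Agent.R625.AZ

/-- Let `G` be any group, `s(i)` finitely many elements of `G`, `c` and `a(i)` complex numbers and
`α = c + ∑ a(i) s(i)`.

1. If the products of at most `N` of the `s(i)` are distinct (also up to inversion), then the
   kernel of `α` on `ℓ²(G)` has dimension at most `1 / (1 + 2 (t + ... + t ^ N))`, where
   `t = |c|² / ∑ |a(i)|²`.
2. If the `s(i)` freely generate a free semigroup in `G` and `|c|² ≥ ∑ |a(i)|²`, `c ≠ 0`, then
   `α * f ≠ 0` for all nonzero `f` in `ℓ²(G)`.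
3. If the `s(i)` freely generate a free semigroup and `|c|² < ∑ |a(i)|²`, then the kernel has
   dimension at most `(∑ |a(i)|² - |c|²) / (∑ |a(i)|² + |c|²)`. -/
theorem result {G : Type u} [Group G] {ι : Type v} [Fintype ι] (s : ι → G) (c : ℂ)
    (a : ι → ℂ) :
    (∀ N : ℕ, DistinctWords s N → kerDim (element s c a) * (1 + 2 * ∑ n ∈ Finset.range N,
      (‖c‖ ^ 2 / ∑ i, ‖a i‖ ^ 2) ^ (n + 1)) ≤ 1) ∧
    (Function.Injective (FreeMonoid.lift s) → c ≠ 0 → ∑ i, ‖a i‖ ^ 2 ≤ ‖c‖ ^ 2 →
      Regular (element s c a)) ∧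
    (Function.Injective (FreeMonoid.lift s) → ‖c‖ ^ 2 < ∑ i, ‖a i‖ ^ 2 →
      kerDim (element s c a) ≤
        (∑ i, ‖a i‖ ^ 2 - ‖c‖ ^ 2) / (∑ i, ‖a i‖ ^ 2 + ‖c‖ ^ 2)) := by
  refine ⟨fun N h => bound s c a N h, ?_, fun hs h => kd_le s c a hs h⟩
  intro hs hc h
  have h0 := kd_eq_zero s c a hs hc h
  by_contra hr
  unfold Regular at hr
  push Not at hr
  obtain ⟨f, hf, hf0, h1⟩ := hr
  have h2 := kd_pos (el s c a) (f := ⟨f, hf⟩) h1 (by
    intro h3
    apply hf0
    exact congrArg (fun x : lp (fun _ : G => ℂ) 2 => (x : G → ℂ)) h3)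
  linarith

end Pool.Agent.Results.MP_0f25e6_al.FreeSemigroupSupport
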