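import Pool.Agent.R625.AZ.Thr
import Pool.Agent.H80R2.BC.Grp

set_option autoImplicit false

namespace Pool.Agent.Results.MP_0f25e6_al.FreeSemigroupThreshold

/-- `α * f` is nonzero for every nonzero square-summable `f`, where
`(α * f)(g) = ∑ α(k) f(k⁻¹ g)`. -/
def Regular {G : Type} [Group G] (α : G →₀ ℂ) : Prop :=
  ∀ f : G → ℂ, Memℓp f 2 → f ≠ 0 → ∃ g : G, ∑ k ∈ α.support, α k * f (k⁻¹ * g) ≠ 0

/-- All square-summable `f` with `α * f = 0`. -/
def kernel {G : Type} [Group G] (α : G →₀ ℂ) : Set (lp (fun _ : G => ℂ) 2) :=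
  {f | ∀ g : G, ∑ k ∈ α.support, α k * f (k⁻¹ * g) = 0}

open Classical in
/-- The von Neumann dimension of the kernel of left convolution by `α`: one minus the square of the
distance from the basis vector at the identity of `G` to the kernel (this is the squared length of
the projection of that vector to the kernel). -/
noncomputable def kerDim {G : Type} [Group G] (α : G →₀ ℂ) : ℝ :=
  1 - Metric.infDist (lp.single 2 (1 : G) (1 : ℂ)) (kernel α) ^ 2

/-- The element `c + ∑ a(i) s(i)` of the complex group algebra. -/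
noncomputable def element {G : Type} [Group G] {ι : Type} [Fintype ι] (s : ι → G) (c : ℂ)
    (a : ι → ℂ) : G →₀ ℂ :=
  Finsupp.single 1 c + ∑ i, Finsupp.single (s i) (a i)

/-- The class `C` of groups is closed under finite powers and under free products with finitely
generated free groups. -/
def ClosedClass (C : (G : Type) → [Group G] → Prop) : Prop :=
  (∀ (G : Type) [Group G] (n : ℕ), C G → C (Fin n → G)) ∧
  ∀ (G : Type) [Group G] (n : ℕ), C G → C (Monoid.Coprod G (FreeGroup (Fin n)))

/-- `G` is torsion-free. -/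
def TorsionFree (G : Type) [Group G] : Prop := ∀ g : G, ∀ n : ℕ, 0 < n → g ^ n = 1 → g = 1

open Pool.Agent.TH57.AZ Pool.Agent.R625.AZ Pool.Agent.H80R2

theorem exists_of_not_regular {G : Type} [Group G] {α : G →₀ ℂ} (h : ¬ Regular α) :
    0 < kd α := by
  unfold Regular at h
  push Not at h
  obtain ⟨f, hf, h0, h1⟩ := h
  refine kd_pos α (f := ⟨f, hf⟩) h1 ?_
  intro h2
  apply h0
  exact congrArg (fun x : lp (fun _ : G => ℂ) 2 => (x : G → ℂ)) h2

theorem kd_of_regular {G : Type} [Group G] {α : G →₀ ℂ} (h : Regular α) : kd α = 0 := by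
  by_contra hne
  obtain ⟨u, hu, _, hu2⟩ := exists_proj α
  have h0 : u ≠ 0 := by
    intro h0
    apply hne
    rw [← hu2, h0]
    simp
  obtain ⟨g, hg⟩ := h u (lp.memℓp u) (by
    intro h1
    exact h0 (lp.ext h1))
  exact hg (hu g)

theorem element_ne_zero {G : Type} [Group G] {ι : Type} [Fintype ι] (s : ι → G) (c : ℂ)
    (a : ι → ℂ) (hs : Function.Injective (FreeMonoid.lift s)) (hc : c ≠ 0) :
    element s c a ≠ 0 := by
  classical
  intro h
  have h1 : element s c a 1 = 0 := by rw [h]; rfl
  unfold element at h1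
  rw [Finsupp.add_apply, Finsupp.single_eq_same, Finsupp.finsetSum_apply,
    Finset.sum_eq_zero, add_zero] at h1
  · exact hc h1
  · intro i _
    refine Finsupp.single_eq_of_ne ?_
    intro h2
    have h3 : FreeMonoid.lift s (FreeMonoid.of i) = FreeMonoid.lift s 1 := by
      rw [FreeMonoid.lift_eval_of, map_one, h2]
    exact FreeMonoid.of_ne_one i (hs h3)

theorem torDiv_of {G : Type} [Group G] (h : TorsionFree G) : BC.TorDiv G 1 := by
  intro H _
  rw [Nat.dvd_one, Nat.card_eq_one_iff_unique]
  refine ⟨⟨fun a b => ?_⟩, ⟨1⟩⟩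
  have h1 : ∀ x : H, x = 1 := by
    intro x
    have h2 : x ^ Nat.card H = 1 := pow_card_eq_one'
    exact Subtype.ext (h x (Nat.card H) Nat.card_pos (congrArg Subtype.val h2))
  rw [h1 a, h1 b]

theorem of_torDiv {G : Type} [Group G] (h : BC.TorDiv G 1) : TorsionFree G := by
  intro g n hn hg
  have h1 : IsOfFinOrder g := isOfFinOrder_iff_pow_eq_one.2 ⟨n, hn, hg⟩
  have h2 : Finite (Subgroup.zpowers g) := (finite_zpowers.2 h1).to_subtype
  have h3 := Nat.dvd_one.1 (h (Subgroup.zpowers g) h2)
  rw [Nat.card_zpowers] at h3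
  exact orderOf_eq_one_iff.1 h3

theorem closed_torsionFree : ClosedClass (fun G [Group G] => TorsionFree G) := by
  refine ⟨fun G _ n h g k hk hg => ?_, fun G _ n h => ?_⟩
  · funext i
    exact h (g i) k hk (congrFun hg i)
  · exact of_torDiv (BC.torDiv_coprod G n 1 (torDiv_of h))

/-- **A sharp threshold for elements supported on free semigroups.**

The torsion-free groups are a class which is closed under finite powers and under free products
with finitely generated free groups. For each such class `C` the following are equivalent.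

1. `α * f ≠ 0` for all `G` in `C`, all nonzero `α` in `ℂ[G]` and all nonzero `f` in `ℓ²(G)`.
2. For some `R > 1` this holds for the `α = c + ∑ a(i) s(i)` with `c ≠ 0`,
   `∑ |a(i)|² ≤ R |c|²` and `s(i)` in `G` which freely generate a free semigroup.
3. For some `R > 1` and some `δ < (√R - 1) / (√R + 1)` no kernel of such an `α` has von Neumann
   dimension greater than `δ`. -/
theorem result :
    ClosedClass (fun G [Group G] => TorsionFree G) ∧
    ∀ C : (G : Type) → [Group G] → Prop, ClosedClass C → List.TFAE [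
      ∀ (G : Type) [Group G], C G → ∀ α : G →₀ ℂ, α ≠ 0 → Regular α,
      ∃ R : ℝ, 1 < R ∧ ∀ (G : Type) [Group G], C G →
        ∀ (ι : Type) [Fintype ι] (s : ι → G) (c : ℂ) (a : ι → ℂ),
          Function.Injective (FreeMonoid.lift s) → c ≠ 0 → ∑ i, ‖a i‖ ^ 2 ≤ R * ‖c‖ ^ 2 →
            Regular (element s c a),
      ∃ R δ : ℝ, 1 < R ∧ δ < (√R - 1) / (√R + 1) ∧ ∀ (G : Type) [Group G], C G →
        ∀ (ι : Type) [Fintype ι] (s : ι → G) (c : ℂ) (a : ι → ℂ),
          Function.Injective (FreeMonoid.lift s) → c ≠ 0 → ∑ i, ‖a i‖ ^ 2 ≤ R * ‖c‖ ^ 2 →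
            kerDim (element s c a) ≤ δ] := by
  refine ⟨closed_torsionFree, fun C hC => ?_⟩
  tfae_have 1 → 2 := by
    intro h
    exact ⟨2, by norm_num, fun G _ hG ι _ s c a hs hc _ =>
      h G hG _ (element_ne_zero s c a hs hc)⟩
  tfae_have 2 → 3 := by
    rintro ⟨R, hR, h⟩
    refine ⟨R, 0, hR, ?_, fun G _ hG ι _ s c a hs hc ha => ?_⟩
    · have h1 : 1 < √R := by
        rw [show (1 : ℝ) = √1 by simp]
        exact Real.sqrt_lt_sqrt (by norm_num) hR
      exact div_pos (by linarith) (by linarith)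
    · exact (kd_of_regular (h G hG ι s c a hs hc ha)).le
  tfae_have 3 → 1 := by
    rintro ⟨R, δ, hR, hδ, h⟩ G _ hG α h0
    by_contra hr
    have h1 := exists_of_not_regular hr
    obtain ⟨Γ, _, ι, _, s, a, hΓ, hs, ha, hk⟩ := main C hC.1 hC.2 G hG α h0 h1 R δ hR hδ
    have h2 := h Γ hΓ ι s 1 a hs one_ne_zero (by
      rw [norm_one]
      simpa using ha)
    exact absurd hk (not_lt.2 h2)
  tfae_finish

end Pool.Agent.Results.MP_0f25e6_al.FreeSemigroupThreshold
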