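import Pool.Agent.R625.AZ.Girth

set_option autoImplicit false

universe u

namespace Pool.Agent.Results.MP_0f25e6_al.ShortRelations

/-- `α * f` is nonzero for every nonzero square-summable `f`, where
`(α * f)(g) = ∑ α(k) f(k⁻¹ g)`. -/
def Regular {G : Type u} [Group G] (α : G →₀ ℂ) : Prop :=
  ∀ f : G → ℂ, Memℓp f 2 → f ≠ 0 → ∃ g : G, ∑ k ∈ α.support, α k * f (k⁻¹ * g) ≠ 0

/-- All square-summable `f` with `α * f = 0`. -/
def kernel {G : Type u} [Group G] (α : G →₀ ℂ) : Set (lp (fun _ : G => ℂ) 2) :=
  {f | ∀ g : G, ∑ k ∈ α.support, α k * f (k⁻¹ * g) = 0}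

open Classical in
/-- The von Neumann dimension of the kernel of left convolution by `α`: one minus the square of the
distance from the basis vector at the identity of `G` to the kernel (this is the squared length of
the projection of that vector to the kernel). -/
noncomputable def kerDim {G : Type u} [Group G] (α : G →₀ ℂ) : ℝ :=
  1 - Metric.infDist (lp.single 2 (1 : G) (1 : ℂ)) (kernel α) ^ 2

/-- A reduced word over the finite set `T`: a list `(t₁, s₁), …, (tₖ, sₖ)` of pairs of elements of
`T` with `tᵢ ≠ sᵢ` and `sᵢ ≠ tᵢ₊₁`. -/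
def Reduced {G : Type u} (T : Finset G) (w : List (G × G)) : Prop :=
  (∀ p ∈ w, p.1 ∈ T ∧ p.2 ∈ T ∧ p.1 ≠ p.2) ∧ w.IsChain (fun p q => p.2 ≠ q.1)

/-- The value `t₁⁻¹ s₁ t₂⁻¹ s₂ ⋯ tₖ⁻¹ sₖ` of the word `(t₁, s₁), …, (tₖ, sₖ)`. -/
def value {G : Type u} [Group G] (w : List (G × G)) : G := (w.map (fun p => p.1⁻¹ * p.2)).prod

open Pool.Agent.TH57.AZ Pool.Agent.R625.AZ

/-- **Kernel dimension and the length of relations.** Let `G` be any group and `α` a nonzero element
of the complex group algebra, with support `T`.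

1. If the values of the reduced words of length at most `L` over `T` are pairwise distinct, then the
   kernel of `α` on `ℓ²(G)` has von Neumann dimension at most `1 / (L + 1)`, whatever the
   coefficients are.
2. If `α * f = 0` for some nonzero `f` in `ℓ²(G)` and `d` is the dimension of the kernel, then
   `d > 0` and some nonempty reduced word of length at most `2 / d` over `T` has value `1`. -/
theorem result {G : Type u} [Group G] (α : G →₀ ℂ) (h0 : α ≠ 0) :
    (∀ L : ℕ, (∀ v w : List (G × G), Reduced α.support v → Reduced α.support w →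
      v.length ≤ L → w.length ≤ L → value v = value w → v = w) → kerDim α * (L + 1) ≤ 1) ∧
    (¬ Regular α → 0 < kerDim α ∧ ∃ w : List (G × G), w ≠ [] ∧ Reduced α.support w ∧
      (w.length : ℝ) * kerDim α ≤ 2 ∧ value w = 1) := by
  refine ⟨fun L hL => girth α h0 L hL, fun h => ?_⟩
  have h1 : 0 < kd α := by
    unfold Regular at h
    push Not at h
    obtain ⟨f, hf, hf0, h1⟩ := h
    refine kd_pos α (f := ⟨f, hf⟩) h1 ?_
    intro h2
    apply hf0
    exact congrArg (fun x : lp (fun _ : G => ℂ) 2 => (x : G → ℂ)) h2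
  exact ⟨h1, short α h0 h1⟩

end Pool.Agent.Results.MP_0f25e6_al.ShortRelations
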